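import Pool.Agent.FewPath.Main

namespace Pool.Agent.Results.MP_8bbdc6_lc.FewPathCollapse

open Pool.Agent.FewPath

/-- If every NP set is decided with bounded error by polynomial-time machines with a constant
number of rounds of quantum computations with few paths, or if every coNP set has short witnesses
which are verified by such machines, then the polynomial hierarchy collapses to its second level;
all relative to an arbitrary oracle `A`. -/
theorem result (A : List Bool → Bool)
    (h : (∀ L : List Bool → Prop, Sig A 1 L → Few A L) ∨
      (∀ L : List Bool → Prop, Sig A 1 (fun x => ¬ L x) → ExFew A L)) :
    ∀ (n : ℕ) (L : List Bool → Prop), Sig A n L → Sig A 2 L := by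
  rcases h with h | h
  · exact fun n L hL => collapse_few h n L hL
  · exact fun n L hL => collapse_exfew h n L hL

end Pool.Agent.Results.MP_8bbdc6_lc.FewPathCollapse
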