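import Pool.Agent.FewPath.Main

namespace Pool.Agent.Results.MP_8bbdc6_lc.FewPathInAM

open Pool.Agent.FewPath

/-- Every set which is decided with bounded error by polynomial-time machines with a constant
number of rounds of quantum computations with few paths belongs to AM and to coAM; all relative to
an arbitrary oracle `A`. -/
theorem result (A : List Bool → Bool) (L : List Bool → Prop) (h : Few A L) :
    AM A L ∧ AM A (fun x => ¬ L x) :=
  h.am

end Pool.Agent.Results.MP_8bbdc6_lc.FewPathInAM
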